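import Pool.Agent.HP778.Main

/-!
# Products of spaces of linear forms in logarithms

If `V` has the hyperplane property and `E ≤ V`, then `dim B * dim E ≤ dim (B E) + dim B (dim B - 1)`
for all finite dimensional spaces `B`: the relations `∑ b_i a_i = 0` with `a_i ∈ E`, `b_i` a basis of
`B`, form a space of vectors in a hyperplane.
-/

set_option autoImplicit false

namespace Pool.Agent.W2helper87.PE

open Module Finset Polynomial Pool.Agent.HP778

variable {k Ω : Type} [Field k] [Field Ω] [Algebra k Ω]

/-- the multiplication map `(a_i) ↦ ∑ b_i a_i` on `E ^ d` -/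
noncomputable def mulMap {d : ℕ} (b : Fin d → Ω) (E C : Submodule k Ω)
    (h : ∀ i, ∀ a ∈ E, b i * a ∈ C) : (Fin d → E) →ₗ[k] C where
  toFun a := ⟨∑ i, b i * (a i : Ω), Submodule.sum_mem _ fun i _ => h i _ (a i).2⟩
  map_add' a a' := by
    apply Subtype.ext
    simp only [Pi.add_apply, Submodule.coe_add, mul_add, Finset.sum_add_distrib]
  map_smul' c a := by
    apply Subtype.ext
    simp only [Pi.smul_apply, Submodule.coe_smul, mul_smul_comm, Finset.smul_sum, RingHom.id_apply]

/-- the inclusion `E ^ d → Ω ^ d` -/
noncomputable def inc {d : ℕ} (E : Submodule k Ω) : (Fin d → E) →ₗ[k] (Fin d → Ω) where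
  toFun a i := (a i : Ω)
  map_add' _ _ := rfl
  map_smul' _ _ := rfl

theorem inc_inj {d : ℕ} (E : Submodule k Ω) : Function.Injective (inc (d := d) E) := by
  intro a a' h
  funext i
  exact Subtype.ext (congrFun h i)

/-- the space of relations -/
theorem exists_K {d : ℕ} (b : Fin d → Ω) (E C : Submodule k Ω) [FiniteDimensional k E]
    [FiniteDimensional k C] (h : ∀ i, ∀ a ∈ E, b i * a ∈ C) :
    ∃ K : Submodule k (Fin d → Ω), FiniteDimensional k K ∧ (∀ a ∈ K, ∀ i, a i ∈ E) ∧
      (∀ a ∈ K, ∑ i, b i * a i = 0) ∧ d * finrank k E ≤ finrank k C + finrank k K := by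
  refine ⟨(LinearMap.ker (mulMap b E C h)).map (inc E), inferInstance, ?_, ?_, ?_⟩
  · rintro _ ⟨a, ha, rfl⟩ i
    exact (a i).2
  · rintro _ ⟨a, ha, rfl⟩
    exact congrArg Subtype.val (LinearMap.mem_ker.1 ha)
  · have h1 := LinearMap.finrank_range_add_finrank_ker (mulMap b E C h)
    rw [Module.finrank_pi_fintype, Finset.sum_const, Finset.card_univ, Fintype.card_fin,
      smul_eq_mul] at h1
    have h2 : finrank k (LinearMap.range (mulMap b E C h)) ≤ finrank k C :=
      Submodule.finrank_le _
    rw [LinearEquiv.finrank_eq (Submodule.equivMapOfInjective (inc E) (inc_inj E)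
      (LinearMap.ker (mulMap b E C h))).symm]
    omega

/-- the product theorem -/
theorem prod_bound {V : Submodule k Ω} (hV : Hyper V) {d : ℕ} (b : Fin d → Ω)
    (hb : LinearIndependent k b) (E C : Submodule k Ω) [FiniteDimensional k E]
    [FiniteDimensional k C] (hE : E ≤ V) (h : ∀ i, ∀ a ∈ E, b i * a ∈ C) :
    d * finrank k E ≤ finrank k C + d * (d - 1) := by
  obtain ⟨K, hKf, hKE, hK0, hK⟩ := exists_K b E C h
  have bs := Module.finBasis k K
  have h4 := hV (Fin (finrank k K)) d b
    (fun i j => (bs j : Fin d → Ω) i) hb (fun i j => hE (hKE _ (bs j).2 i))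
    (fun j => hK0 _ (bs j).2) (bs.linearIndependent.map' K.subtype (Submodule.ker_subtype K))
  rw [Fintype.card_fin] at h4
  omega

/-- the coefficients of the relations `t ^ j * t - t ^ (j + 1) * 1 = 0` -/
noncomputable def shiftV {d : ℕ} (t : Ω) (i : Fin (d + 1)) (j : Fin d) : Ω :=
  if i = j.castSucc then t else if i = j.succ then -1 else 0

theorem cs_ne {d : ℕ} (j : Fin d) : j.castSucc ≠ j.succ := by
  intro h'
  have := congrArg Fin.val h'
  simp at this

theorem shiftV_sum {d : ℕ} (t : Ω) (j : Fin d) :
    ∑ i : Fin (d + 1), t ^ (i : ℕ) * shiftV t i j = 0 := by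
  have h1 : ∀ i : Fin (d + 1), t ^ (i : ℕ) * shiftV t i j =
      (if i = j.castSucc then t ^ (i : ℕ) * t else 0) -
        (if i = j.succ then t ^ (i : ℕ) else 0) := by
    intro i
    unfold shiftV
    by_cases hi : i = j.castSucc
    · rw [if_pos hi, if_pos hi, if_neg (by rw [hi]; exact cs_ne j), sub_zero]
    · rw [if_neg hi, if_neg hi]
      split_ifs <;> ring
  simp only [h1]
  rw [Finset.sum_sub_distrib, Finset.sum_ite_eq' Finset.univ, Finset.sum_ite_eq' Finset.univ,
    if_pos (Finset.mem_univ _), if_pos (Finset.mem_univ _), Fin.val_castSucc, Fin.val_succ]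
  ring

theorem shiftV_comb {d : ℕ} (t : Ω) (g : Fin d → k) (i : Fin (d + 1)) :
    ∑ j : Fin d, g j • shiftV t i j =
      (∑ j : Fin d, if i = j.castSucc then g j • t else 0) -
        ∑ j : Fin d, if i = j.succ then g j • (1 : Ω) else 0 := by
  rw [← Finset.sum_sub_distrib]
  refine Finset.sum_congr rfl fun j _ => ?_
  unfold shiftV
  by_cases hi : i = j.castSucc
  · rw [if_pos hi, if_pos hi, if_neg (by rw [hi]; exact cs_ne j), sub_zero]
  · rw [if_neg hi, if_neg hi]
    split_ifs <;> simp

/-- combinations of the relations with all entries in `E` vanish -/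
theorem shiftV_zero {d : ℕ} (t : Ω) (E : Submodule k Ω) (h1E : (1 : Ω) ∉ E) (g : Fin d → k)
    (hg : ∀ i : Fin (d + 1), ∑ j : Fin d, g j • shiftV t i j ∈ E) : ∀ j, g j = 0 := by
  have hzero : ∀ m : ℕ, ∀ j : Fin d, d ≤ (j : ℕ) + 1 + m → g j = 0 := by
    intro m
    induction m with
    | zero =>
      intro j hj
      have h9 := hg j.succ
      rw [shiftV_comb] at h9
      have e1 : (∑ j' : Fin d, if j.succ = j'.castSucc then g j' • t else 0) = 0 := by
        apply Finset.sum_eq_zero
        intro j' _
        rw [if_neg]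
        intro h'
        have h'' := congrArg Fin.val h'
        rw [Fin.val_succ, Fin.val_castSucc] at h''
        omega
      have e2 : (∑ j' : Fin d, if j.succ = j'.succ then g j' • (1 : Ω) else 0) = g j • (1 : Ω) := by
        rw [Finset.sum_eq_single j]
        · rw [if_pos rfl]
        · intro j' _ hj'
          rw [if_neg]
          intro h'
          exact hj' (Fin.succ_injective _ h').symm
        · intro h'
          exact absurd (Finset.mem_univ _) h'
      rw [e1, e2, zero_sub] at h9
      by_contra hne
      apply h1E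
      have h10 := E.smul_mem (-(g j)⁻¹) h9
      rw [smul_neg, neg_smul, neg_neg, smul_smul, inv_mul_cancel₀ hne, one_smul] at h10
      exact h10
    | succ m ih =>
      intro j hj
      by_cases hlast : d ≤ (j : ℕ) + 1 + m
      · exact ih j hlast
      · have h9 := hg j.succ
        rw [shiftV_comb] at h9
        have e1 : (∑ j' : Fin d, if j.succ = j'.castSucc then g j' • t else 0) = 0 := by
          apply Finset.sum_eq_zero
          intro j' _
          split_ifs with h'
          · have h'' := congrArg Fin.val h'
            rw [Fin.val_succ, Fin.val_castSucc] at h''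
            rw [ih j' (by omega), zero_smul]
          · rfl
        have e2 : (∑ j' : Fin d, if j.succ = j'.succ then g j' • (1 : Ω) else 0) =
            g j • (1 : Ω) := by
          rw [Finset.sum_eq_single j]
          · rw [if_pos rfl]
          · intro j' _ hj'
            rw [if_neg]
            intro h'
            exact hj' (Fin.succ_injective _ h').symm
          · intro h'
            exact absurd (Finset.mem_univ _) h'
        rw [e1, e2, zero_sub] at h9
        by_contra hne
        apply h1E
        have h10 := E.smul_mem (-(g j)⁻¹) h9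
        rw [smul_neg, neg_smul, neg_neg, smul_smul, inv_mul_cancel₀ hne, one_smul] at h10
        exact h10
  exact fun j => hzero d j (by omega)

theorem pow_indep {t : Ω} (ht : Transcendental k t) (d : ℕ) :
    LinearIndependent k (fun i : Fin d => t ^ (i : ℕ)) := by
  have h0 : LinearIndependent k (fun i : ℕ => t ^ i) := by
    rw [linearIndependent_iff']
    intro s g hg i hi
    have h2 : aeval t (∑ i ∈ s, Polynomial.monomial i (g i)) = 0 := by
      rw [map_sum, ← hg]
      refine Finset.sum_congr rfl fun j _ => ?_
      rw [aeval_monomial, Algebra.smul_def]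
    have h3 := (transcendental_iff.mp ht) _ h2
    have h4 : (∑ i ∈ s, Polynomial.monomial i (g i)).coeff i = g i := by
      rw [Polynomial.finsetSum_coeff]
      simp only [Polynomial.coeff_monomial]
      rw [Finset.sum_ite_eq' s i g, if_pos hi]
    rw [← h4, h3, Polynomial.coeff_zero]
  exact h0.comp _ Fin.val_injective

/-- the product theorem, if `1` and `t` are in `V`, `1` is not in `E`, and the multipliers are the
powers of `t` -/
theorem prod_bound' {V : Submodule k Ω} (hV : Hyper V) {t : Ω} (ht : Transcendental k t) {d : ℕ}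
    (E C : Submodule k Ω) [FiniteDimensional k E]
    [FiniteDimensional k C] (hE : E ≤ V) (h1V : (1 : Ω) ∈ V) (htV : t ∈ V) (h1E : (1 : Ω) ∉ E)
    (h : ∀ i : Fin (d + 1), ∀ a ∈ E, t ^ (i : ℕ) * a ∈ C) :
    (d + 1) * finrank k E ≤ finrank k C + d * d := by
  obtain ⟨K, hKf, hKE, hK0, hK⟩ := exists_K (fun i : Fin (d + 1) => t ^ (i : ℕ)) E C h
  have bs := Module.finBasis k K
  have h6 : LinearIndependent k (fun j => ((bs j : K) : Fin (d + 1) → Ω)) :=
    bs.linearIndependent.map' K.subtype (Submodule.ker_subtype K)
  have h4 := hV (Fin (finrank k K) ⊕ Fin d) (d + 1) (fun i : Fin (d + 1) => t ^ (i : ℕ))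
    (fun i => Sum.elim (fun j => (bs j : Fin (d + 1) → Ω) i) (shiftV t i)) (pow_indep ht _)
    ?_ ?_ ?_
  · rw [Fintype.card_sum, Fintype.card_fin, Fintype.card_fin, Nat.add_sub_cancel] at h4
    have h5 : (d + 1) * d = d * d + d := by ring
    omega
  · intro i j
    rcases j with j | j
    · exact hE (hKE _ (bs j).2 i)
    · change shiftV t i j ∈ V
      unfold shiftV
      split_ifs
      · exact htV
      · exact Submodule.neg_mem _ h1V
      · exact Submodule.zero_mem _
  · intro j
    rcases j with j | j
    · exact hK0 _ (bs j).2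
    · exact shiftV_sum t j
  · rw [Fintype.linearIndependent_iff]
    intro g hg
    have h7 : ∀ i : Fin (d + 1), ∑ j, g (Sum.inl j) • (bs j : Fin (d + 1) → Ω) i +
        ∑ j, g (Sum.inr j) • shiftV t i j = 0 := by
      intro i
      have h8 := congrFun hg i
      rw [Finset.sum_apply, Fintype.sum_sum_type] at h8
      exact h8
    have hr : ∀ j : Fin d, g (Sum.inr j) = 0 := by
      refine shiftV_zero t E h1E (fun j => g (Sum.inr j)) fun i => ?_
      have h8 : ∑ j : Fin d, g (Sum.inr j) • shiftV t i j =
          -∑ j, g (Sum.inl j) • (bs j : Fin (d + 1) → Ω) i := by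
        rw [eq_neg_iff_add_eq_zero, add_comm]
        exact h7 i
      rw [h8]
      exact Submodule.neg_mem _ (Submodule.sum_mem _ fun j _ =>
        Submodule.smul_mem _ _ (hKE _ (bs j).2 i))
    have hl : ∀ j, g (Sum.inl j) = 0 := by
      rw [Fintype.linearIndependent_iff] at h6
      apply h6
      funext i
      have h8 := h7 i
      rw [Finset.sum_eq_zero (s := (Finset.univ : Finset (Fin d)))
        (fun j _ => by rw [hr j, zero_smul]), add_zero] at h8
      rw [Finset.sum_apply]
      exact h8
    intro j
    rcases j with j | j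
    · exact hl j
    · exact hr j

end Pool.Agent.W2helper87.PE
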