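import Pool.Agent.W2helper87.PE.Core

/-!
# Polynomial exponents
-/

set_option autoImplicit false

namespace Pool.Agent.W2helper87.PE

open Module Finset Polynomial Pool.Agent.HP778
open Pool.Agent.H301R2.SSE (QB mem_QB Lt Lt_mul Lt_alg Lt_log Lt_one LB LB_alg LB_log)

/-- the product theorem for linear forms in logarithms -/
theorem prod_Lt (E B : Submodule QB ℂ) [FiniteDimensional QB E] [FiniteDimensional QB B]
    (hE : E ≤ Lt) : finrank QB B * finrank QB E ≤
      finrank QB ↥(B * E) + finrank QB B * (finrank QB B - 1) := by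
  have bs := Module.finBasis QB B
  have hfd : FiniteDimensional QB ↥(B * E) := by
    have h1 : B.FG := Module.Finite.iff_fg.mp inferInstance
    have h2 : E.FG := Module.Finite.iff_fg.mp inferInstance
    exact Module.Finite.iff_fg.mpr (h1.mul h2)
  refine prod_bound hyper_Lt (fun i => (bs i : ℂ)) ?_ E (B * E) hE fun i a ha =>
    Submodule.mul_mem_mul (bs i).2 ha
  exact bs.linearIndependent.map' B.subtype (Submodule.ker_subtype B)

/-- the values `∑ Q_i z_i` with `Q_i` of degree `< n` in `t` -/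
noncomputable def Phi {r : ℕ} (t : ℂ) (z : Fin r → ℂ) (n : ℕ) :
    (Fin r → PV QB t n) →ₗ[QB] ℂ where
  toFun Q := ∑ i, (Q i : ℂ) * z i
  map_add' Q Q' := by
    simp only [Pi.add_apply, Submodule.coe_add, add_mul, Finset.sum_add_distrib]
  map_smul' c Q := by
    simp only [Pi.smul_apply, Submodule.coe_smul, smul_mul_assoc, Finset.smul_sum,
      RingHom.id_apply]

theorem finrank_range_Phi {r : ℕ} {t : ℂ} (ht : Transcendental ℚ t) (z : Fin r → ℂ) (n : ℕ) :
    finrank QB (LinearMap.range (Phi t z n)) ≤ r * n := by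
  refine (LinearMap.finrank_range_le _).trans ?_
  rw [Module.finrank_pi_fintype, Finset.sum_const, Finset.card_univ, Fintype.card_fin,
    smul_eq_mul, finrank_PV (tr_QB ht)]

/-- spaces of values `∑ P_i(t) z_i`, `deg P_i ≤ N`, in the space of linear forms in logarithms -/
theorem values_bound {r N : ℕ} {t : ℂ} (ht : Transcendental ℚ t) (z : Fin r → ℂ)
    (E : Submodule QB ℂ) (hE : E ≤ Lt)
    (h : ∀ w ∈ E, ∃ P : Fin r → QB[X], (∀ i, (P i).natDegree ≤ N) ∧
      w = ∑ i, aeval t (P i) * z i) (D : ℕ) :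
    FiniteDimensional QB E ∧ D * finrank QB E ≤ r * (N + D) + D * (D - 1) := by
  have hfd : FiniteDimensional QB E := by
    have h1 : E ≤ LinearMap.range (Phi t z (N + 1)) := by
      intro w hw
      obtain ⟨P, hP, rfl⟩ := h w hw
      exact ⟨fun i => ⟨aeval t (P i), aeval_mem_PV (by have := hP i; omega)⟩, rfl⟩
    exact Submodule.finiteDimensional_of_le h1
  refine ⟨hfd, ?_⟩
  have h2 := prod_bound hyper_Lt (fun i : Fin D => t ^ (i : ℕ)) (pow_indep (tr_QB ht) D) E
    (LinearMap.range (Phi t z (N + D))) hE (fun i a ha => ?_)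
  · exact h2.trans (Nat.add_le_add_right (finrank_range_Phi ht z _) _)
  · obtain ⟨P, hP, rfl⟩ := h a ha
    refine ⟨fun j => ⟨t ^ (i : ℕ) * aeval t (P j), ?_⟩, ?_⟩
    · have h3 : t ^ (i : ℕ) * aeval t (P j) = aeval t (X ^ (i : ℕ) * P j) := by
        rw [map_mul, map_pow, aeval_X]
      rw [h3]
      apply aeval_mem_PV
      have h4 := natDegree_mul_le (p := (X : QB[X]) ^ (i : ℕ)) (q := P j)
      rw [natDegree_X_pow] at h4
      have := hP j
      have := i.2
      omega
    · change ∑ j, (t ^ (i : ℕ) * aeval t (P j)) * z j = _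
      rw [Finset.mul_sum]
      exact Finset.sum_congr rfl fun j _ => by ring

/-- the map `P ↦ P(t) z` -/
noncomputable def evz (t z : ℂ) : QB[X] →ₗ[QB] ℂ where
  toFun P := aeval t P * z
  map_add' P Q := by rw [map_add, add_mul]
  map_smul' c P := by rw [map_smul, smul_mul_assoc, RingHom.id_apply]

theorem evz_inj {t z : ℂ} (ht : Transcendental ℚ t) (hz : z ≠ 0) :
    Function.Injective (evz t z) := by
  intro P Q h
  exact aeval_inj (tr_QB ht) (mul_right_cancel₀ hz h)

/-- spaces of polynomials `P` without constant term for which `P(t) z` is a combination of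
logarithms -/
theorem poly_bound {N : ℕ} {t z : ℂ} (ht : Transcendental ℚ t) (htL : t ∈ Lt) (hz : z ≠ 0)
    (A : Submodule QB QB[X]) (hA : ∀ P ∈ A, P.coeff 0 = 0 ∧ P.natDegree ≤ N)
    (hL : ∀ P ∈ A, aeval t P * z ∈ LB) (d : ℕ) :
    FiniteDimensional QB A ∧ (d + 1) * finrank QB A ≤ N + (d + 1) * d := by
  have hfd : FiniteDimensional QB A := by
    have h1 : A ≤ degreeLT QB (N + 1) := by
      intro P hP
      rw [mem_degreeLT]
      refine lt_of_le_of_lt degree_le_natDegree ?_
      have := (hA P hP).2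
      exact_mod_cast Nat.lt_succ_of_le this
    have : FiniteDimensional QB (degreeLT QB (N + 1)) :=
      LinearEquiv.finiteDimensional (degreeLTEquiv QB (N + 1)).symm
    exact Submodule.finiteDimensional_of_le h1
  refine ⟨hfd, ?_⟩
  have e1 : finrank QB (A.map (evz t z)) = finrank QB A :=
    (LinearEquiv.finrank_eq (Submodule.equivMapOfInjective (evz t z) (evz_inj ht hz) A)).symm
  have hLt : LB ≤ Lt := Submodule.span_mono Set.subset_union_right
  have h2 := prod_bound' hyper_Lt (tr_QB ht) (d := d) (A.map (evz t z))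
    (zV (t * z) (PV QB t (N + d))) ?_ Lt_one htL ?_ ?_
  · rw [e1] at h2
    have h3 : finrank QB (zV (t * z) (PV QB t (N + d))) ≤ N + d :=
      (finrank_zV_le _ _).trans (finrank_PV (tr_QB ht) _).le
    have h4 : (d + 1) * d = d * d + d := by ring
    omega
  · rintro _ ⟨P, hP, rfl⟩
    exact hLt (hL P hP)
  · rintro ⟨P, hP, h1⟩
    have h3 : (1 : ℂ) ∈ LB := by
      rw [← h1]
      exact hL P hP
    exact one_ne_zero (LB_alg h3 isAlgebraic_one)
  · rintro i _ ⟨P, hP, rfl⟩
    change t ^ (i : ℕ) * (aeval t P * z) ∈ _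
    obtain ⟨Q, hQ⟩ := X_dvd_iff.mpr (hA P hP).1
    by_cases hQ0 : Q = 0
    · rw [hQ, hQ0, mul_zero, map_zero, zero_mul, mul_zero]
      exact Submodule.zero_mem _
    have h5 : t ^ (i : ℕ) * (aeval t P * z) = aeval t (X ^ (i : ℕ) * Q) * (t * z) := by
      rw [hQ, map_mul, map_mul, map_pow, aeval_X]
      ring
    rw [h5]
    apply mem_zV
    apply aeval_mem_PV
    have h6 := (hA P hP).2
    rw [hQ, natDegree_mul X_ne_zero hQ0, natDegree_X] at h6
    rw [natDegree_mul (pow_ne_zero _ X_ne_zero) hQ0, natDegree_X_pow]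
    have := i.2
    omega

/-- from the inequalities for all `D` to the square root -/
theorem sqrt_of {e r M : ℕ} (h : ∀ D : ℕ, 1 ≤ D → D * e ≤ M + r * D + D * (D - 1)) :
    e + 1 ≤ r + Nat.sqrt (4 * M + 1) := by
  by_contra hcon
  push Not at hcon
  have hr : r ≤ e := by omega
  obtain ⟨f, rfl⟩ := Nat.exists_eq_add_of_le hr
  have h1 : Nat.sqrt (4 * M + 1) < f + 1 := by omega
  rw [Nat.sqrt_lt'] at h1
  obtain ⟨g, hg⟩ := Nat.even_or_odd' f
  have h2 := h (g + 1) (by omega)
  rw [Nat.add_sub_cancel] at h2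
  rcases hg with hg | hg
  · subst hg
    nlinarith
  · subst hg
    nlinarith

end Pool.Agent.W2helper87.PE
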